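import Mathlib
import Pool.Agent.H20.KQThreeGaps

/-!
# Sets containing long sequences with consecutive differences `u`, `v`, `u + v`

If a set of integers contains arbitrarily long sequences whose consecutive differences lie in
`{u, v, u + v}` and are at most `R` (for example if all gaps of the set have one of these
lengths), then its difference set contains a two-dimensional Bohr set of radius `1 / R`.
-/

set_option autoImplicit false

namespace Pool.Agent.H20.Old.ThreeGaps83445

open Finset Pool.Agent.H20.KQ3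

/-- Compactness: from arbitrarily long sequences in `A` to one infinite sequence all of whose
differences are differences of elements of `A`. -/
theorem limit (A : Set ℤ) (S : Finset ℤ)
    (h : ∀ N : ℕ, ∃ a : ℕ → ℤ, (∀ i ≤ N, a i ∈ A) ∧ ∀ i < N, a (i + 1) - a i ∈ S) :
    ∃ a : ℕ → ℤ, (∀ i, a (i + 1) - a i ∈ S) ∧ ∀ i j, ∃ x ∈ A, ∃ y ∈ A, a i - a j = x - y := by
  classical
  obtain ⟨s₀, hs₀⟩ : S.Nonempty := by
    obtain ⟨a, _, ha⟩ := h 1
    exact ⟨_, ha 0 one_pos⟩
  -- sequences of steps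
  let C : ℕ → Set (ℕ → S) := fun N =>
    {s | ∃ x : ℤ, ∀ i ≤ N, x + ∑ j ∈ range i, ((s j : S) : ℤ) ∈ A}
  have hne : ∀ N, (C N).Nonempty := by
    intro N
    obtain ⟨a, ha, hs⟩ := h N
    refine ⟨fun i => if hi : i < N then ⟨a (i + 1) - a i, hs i hi⟩ else ⟨s₀, hs₀⟩, a 0, ?_⟩
    intro i hi
    have : ∀ i ≤ N, a 0 + ∑ j ∈ range i,
        (((if hi : j < N then ⟨a (j + 1) - a j, hs j hi⟩ else ⟨s₀, hs₀⟩ : S)) : ℤ) = a i := by
      intro i
      induction i with
      | zero => intro _; simp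
      | succ i ih =>
        intro hi
        rw [sum_range_succ, ← add_assoc, ih (by omega), dif_pos (by omega)]
        ring
    rw [this i hi]
    exact ha i hi
  have hcl : ∀ N, IsClosed (C N) := by
    intro N
    let r : (ℕ → S) → (Fin N → S) := fun s i => s i
    have hr : Continuous r := continuous_pi fun i => continuous_apply (i : ℕ)
    have e : C N = r ⁻¹' (r '' C N) := by
      apply Set.Subset.antisymm (Set.subset_preimage_image r _)
      rintro s ⟨t, ⟨x, hx⟩, hts⟩
      refine ⟨x, fun i hi => ?_⟩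
      have : ∑ j ∈ range i, ((s j : S) : ℤ) = ∑ j ∈ range i, ((t j : S) : ℤ) := by
        apply sum_congr rfl
        intro j hj
        rw [mem_range] at hj
        have := congrFun hts ⟨j, by omega⟩
        simp only [r] at this
        rw [this]
      rw [this]
      exact hx i hi
    rw [e]
    exact (isClosed_discrete _).preimage hr
  have hanti : ∀ N, C (N + 1) ⊆ C N := by
    rintro N s ⟨x, hx⟩
    exact ⟨x, fun i hi => hx i (by omega)⟩
  obtain ⟨s, hs⟩ := IsCompact.nonempty_iInter_of_sequence_nonempty_isCompact_isClosed C hanti hne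
    (hcl 0).isCompact hcl
  rw [Set.mem_iInter] at hs
  refine ⟨fun i => ∑ j ∈ range i, ((s j : S) : ℤ), ?_, ?_⟩
  · intro i
    show ∑ j ∈ range (i + 1), ((s j : S) : ℤ) - ∑ j ∈ range i, ((s j : S) : ℤ) ∈ S
    rw [sum_range_succ, add_sub_cancel_left]
    exact (s i).2
  · intro i j
    obtain ⟨x, hx⟩ := hs (max i j)
    exact ⟨_, hx i (le_max_left _ _), _, hx j (le_max_right _ _), by ring⟩

/-- Let `u, v` be positive integers, `R ≥ u, v`, and let `A` be a set of integers that contains,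
for every `N`, a sequence of `N + 1` elements whose consecutive differences all lie in
`{u, v, u + v}` and are at most `R`.  Then for some real numbers `θ 0` and `θ 1` every integer `n`
such that `θ 0 * n` and `θ 1 * n` are at distance less than `1 / R` from the nearest integers is a
difference of two elements of `A`. -/
theorem result (A : Set ℤ) (u v R : ℤ) (hu : 0 < u) (hv : 0 < v) (huR : u ≤ R) (hvR : v ≤ R)
    (h : ∀ N : ℕ, ∃ a : ℕ → ℤ, (∀ i ≤ N, a i ∈ A) ∧
      ∀ i < N, (a (i + 1) - a i = u ∨ a (i + 1) - a i = v ∨ a (i + 1) - a i = u + v) ∧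
        a (i + 1) - a i ≤ R) :
    ∃ θ : Fin 2 → ℝ, ∀ n : ℤ,
      (∀ j, |θ j * n - round (θ j * n)| < 1 / (R : ℝ)) →
      ∃ x ∈ A, ∃ y ∈ A, n = x - y := by
  classical
  obtain ⟨a, ha, hA⟩ := limit A (({u, v, u + v} : Finset ℤ).filter (· ≤ R)) (by
    intro N
    obtain ⟨a, h1, h2⟩ := h N
    refine ⟨a, h1, fun i hi => ?_⟩
    rw [mem_filter]
    refine ⟨?_, (h2 i hi).2⟩
    rcases (h2 i hi).1 with h3 | h3 | h3 <;> simp [h3])
  obtain ⟨θ, hθ⟩ := three_gaps a u v R hu hv huR hvR (by
    intro i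
    have := (mem_filter.mp (ha i)).1
    simp only [mem_insert, mem_singleton] at this
    rcases this with h3 | h3 | h3
    · left; linarith
    · right; left; linarith
    · right; right; linarith) (fun i => (mem_filter.mp (ha i)).2)
  have hdpos : (0 : ℤ) < (Int.gcd u v : ℤ) := by
    exact_mod_cast Int.gcd_pos_of_ne_zero_left v hu.ne'
  have hdr : (0 : ℝ) < (Int.gcd u v : ℝ) := by exact_mod_cast hdpos
  have hd1 : (1 : ℝ) ≤ (Int.gcd u v : ℝ) := by exact_mod_cast hdpos
  have hRpos : (0 : ℤ) < R := lt_of_lt_of_le hu huR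
  have hRr : (0 : ℝ) < (R : ℝ) := by exact_mod_cast hRpos
  have hdR : (Int.gcd u v : ℤ) ≤ R := (Int.le_of_dvd hu (Int.gcd_dvd_left u v)).trans huR
  have hdRr : (Int.gcd u v : ℝ) ≤ (R : ℝ) := by exact_mod_cast hdR
  refine ⟨![θ, 1 / (Int.gcd u v : ℝ)], ?_⟩
  intro n hn
  have h0 : |θ * n - round (θ * n)| < 1 / (R : ℝ) := hn 0
  have h1 : |1 / (Int.gcd u v : ℝ) * n - round (1 / (Int.gcd u v : ℝ) * n)| < 1 / (R : ℝ) := hn 1
  have hdvd : (Int.gcd u v : ℤ) ∣ n := by
    set r : ℤ := round (1 / (Int.gcd u v : ℝ) * n) with hr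
    have h2 : |((n - Int.gcd u v * r : ℤ) : ℝ)| < 1 := by
      have e : ((n - Int.gcd u v * r : ℤ) : ℝ) =
          (Int.gcd u v : ℝ) * (1 / (Int.gcd u v : ℝ) * n - r) := by
        push_cast; field_simp
      rw [e, abs_mul, abs_of_pos hdr]
      calc (Int.gcd u v : ℝ) * |1 / (Int.gcd u v : ℝ) * n - r|
          < (Int.gcd u v : ℝ) * (1 / (R : ℝ)) := mul_lt_mul_of_pos_left h1 hdr
        _ ≤ (R : ℝ) * (1 / (R : ℝ)) := mul_le_mul_of_nonneg_right hdRr (by positivity)
        _ = 1 := by field_simp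
    have h3 : |n - Int.gcd u v * r| < 1 := by exact_mod_cast h2
    have h4 : n - Int.gcd u v * r = 0 := Int.abs_lt_one_iff.mp h3
    exact ⟨r, by linarith⟩
  obtain ⟨i, j, hij⟩ := hθ n hdvd (lt_of_lt_of_le h0 (div_le_div_of_nonneg_right hd1 hRr.le))
  obtain ⟨x, hx, y, hy, hxy⟩ := hA i j
  exact ⟨x, hx, y, hy, by rw [hij, hxy]⟩

end Pool.Agent.H20.Old.ThreeGaps83445
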